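import Mathlib
import Pool.Agent.Run7.h353.PS.Reduce

/-! Relative enumerability and projections. -/

namespace Pool.Agent.Run7.h353.PF

open Pool.Agent.Helper446 Pool.Agent.Helper446.RE Pool.Agent.Helper446.Oracle
open Pool.Agent.Run7.h353.PS

variable {A J : Set ℕ} {α : Type} [Primcodable α]

theorem ok_re (hA : REIn J (· ∈ A)) (hA' : REIn J (· ∉ A)) :
    REIn J fun d : List ℕ × List ℕ => Ok A d := by
  unfold Ok
  refine REIn.and ?_ ?_
  · refine REIn.all_mem (S := fun (_ : List ℕ × List ℕ) (x : ℕ) => x ∈ A)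
      (l := fun d : List ℕ × List ℕ => d.1) ?_ (by fun_prop)
    exact hA.comp (f := fun x : (List ℕ × List ℕ) × ℕ => x.2) (by fun_prop)
  · refine REIn.all_mem (S := fun (_ : List ℕ × List ℕ) (x : ℕ) => x ∉ A)
      (l := fun d : List ℕ × List ℕ => d.2) ?_ (by fun_prop)
    exact hA'.comp (f := fun x : (List ℕ × List ℕ) × ℕ => x.2) (by fun_prop)

theorem not_ok_re (hA : REIn J (· ∈ A)) (hA' : REIn J (· ∉ A)) :
    REIn J fun d : List ℕ × List ℕ => ¬ Ok A d := by
  have h1 : REIn J fun d : List ℕ × List ℕ => ∃ x : ℕ, (x ∈ d.1 ∧ x ∉ A) ∨ (x ∈ d.2 ∧ x ∈ A) := by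
    refine REIn.ex (S := fun (d : List ℕ × List ℕ) (x : ℕ) =>
      (x ∈ d.1 ∧ x ∉ A) ∨ (x ∈ d.2 ∧ x ∈ A)) ?_
    refine REIn.or (REIn.and (REIn.of_re ?_) ?_) (REIn.and (REIn.of_re ?_) ?_)
    · exact RE.mem_list (f := fun x : (List ℕ × List ℕ) × ℕ => x.2)
        (l := fun x : (List ℕ × List ℕ) × ℕ => x.1.1) (by fun_prop) (by fun_prop)
    · exact hA'.comp (f := fun x : (List ℕ × List ℕ) × ℕ => x.2) (by fun_prop)
    · exact RE.mem_list (f := fun x : (List ℕ × List ℕ) × ℕ => x.2)
        (l := fun x : (List ℕ × List ℕ) × ℕ => x.1.2) (by fun_prop) (by fun_prop)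
    · exact hA.comp (f := fun x : (List ℕ × List ℕ) × ℕ => x.2) (by fun_prop)
  refine h1.of_eq fun d => ?_
  unfold Ok
  constructor
  · rintro ⟨x, h | h⟩ ⟨h2, h3⟩
    · exact h.2 (h2 x h.1)
    · exact h3 x h.1 h.2
  · intro h
    by_contra hcon
    push Not at hcon
    exact h ⟨fun x hx => (hcon x).1 hx, fun x hx => (hcon x).2 hx⟩

/-- Transitivity. -/
theorem re_trans (hA : REIn J (· ∈ A)) (hA' : REIn J (· ∉ A)) {p : α → Prop} (h : REIn A p) :
    REIn J p := by
  obtain ⟨R, hR, h⟩ := h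
  have h1 : REIn J fun a => ∃ d : List ℕ × List ℕ, R a d ∧ Ok A d := by
    refine REIn.ex (S := fun (a : α) (d : List ℕ × List ℕ) => R a d ∧ Ok A d) ?_
    exact (REIn.of_re hR).and ((ok_re hA hA').comp (f := fun x : α × (List ℕ × List ℕ) => x.2)
      (by fun_prop))
  exact h1.of_eq fun a => (h a).symm

/-- A set enumerable in `A` is a projection of a set computable from `A`. -/
theorem proj {p : ℕ → Prop} (hp : REIn A p) : ∃ R : Set ℕ, (REIn A (· ∈ R) ∧ REIn A (· ∉ R)) ∧
    ∀ n, p n ↔ ∃ t, Nat.pair n t ∈ R := by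
  obtain ⟨R0, hR0, h⟩ := hp
  obtain ⟨q, hq, hq'⟩ := RE.re_iff.1 hR0
  have hA : REIn A (· ∈ A) := REIn.mem Computable.id
  have hA' : REIn A (· ∉ A) := REIn.not_mem Computable.id
  have hdec : Computable fun x : ℕ × (List ℕ × List ℕ) =>
      (Encodable.decode (α := List ℕ × List ℕ) x.1.unpair.2.unpair.1) := by
    exact Computable.decode.comp ((Primrec.fst.comp (Primrec.unpair.comp (Primrec.snd.comp
      (Primrec.unpair.comp Primrec.fst)))).to_comp)
  have hqc : Computable fun x : ℕ × (List ℕ × List ℕ) =>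
      q (x.1.unpair.1, x.2) x.1.unpair.2.unpair.2 := by
    refine hq.comp (Computable.pair ?_ Computable.snd) ?_
    · exact (Primrec.fst.comp (Primrec.unpair.comp Primrec.fst)).to_comp
    · exact (Primrec.snd.comp (Primrec.unpair.comp (Primrec.snd.comp
        (Primrec.unpair.comp Primrec.fst)))).to_comp
  refine ⟨{w | ∃ d : List ℕ × List ℕ, Encodable.decode (α := List ℕ × List ℕ)
    w.unpair.2.unpair.1 = some d ∧ (q (w.unpair.1, d) w.unpair.2.unpair.2 = true ∧ Ok A d)},
    ⟨?_, ?_⟩, ?_⟩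
  · refine REIn.ex (S := fun (w : ℕ) (d : List ℕ × List ℕ) =>
      Encodable.decode (α := List ℕ × List ℕ) w.unpair.2.unpair.1 = some d ∧
        (q (w.unpair.1, d) w.unpair.2.unpair.2 = true ∧ Ok A d)) ?_
    refine REIn.and (REIn.of_re (RE.eq hdec (Computable.option_some.comp Computable.snd))) ?_
    refine REIn.and (REIn.of_re (RE.eq hqc (Computable.const true))) ?_
    exact (ok_re hA hA').comp (f := fun x : ℕ × (List ℕ × List ℕ) => x.2) (by fun_prop)
  · have h1 : REIn A fun w : ℕ => Encodable.decode (α := List ℕ × List ℕ)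
        w.unpair.2.unpair.1 = none ∨ ∃ d : List ℕ × List ℕ,
        Encodable.decode (α := List ℕ × List ℕ) w.unpair.2.unpair.1 = some d ∧
        (q (w.unpair.1, d) w.unpair.2.unpair.2 = false ∨ ¬ Ok A d) := by
      refine REIn.or (REIn.of_re (RE.eq ?_ (Computable.const none))) ?_
      · exact Computable.decode.comp ((Primrec.fst.comp (Primrec.unpair.comp (Primrec.snd.comp
          Primrec.unpair))).to_comp)
      refine REIn.ex (S := fun (w : ℕ) (d : List ℕ × List ℕ) =>
        Encodable.decode (α := List ℕ × List ℕ) w.unpair.2.unpair.1 = some d ∧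
          (q (w.unpair.1, d) w.unpair.2.unpair.2 = false ∨ ¬ Ok A d)) ?_
      refine REIn.and (REIn.of_re (RE.eq hdec (Computable.option_some.comp Computable.snd))) ?_
      refine REIn.or (REIn.of_re (RE.eq hqc (Computable.const false))) ?_
      exact (not_ok_re hA hA').comp (f := fun x : ℕ × (List ℕ × List ℕ) => x.2) (by fun_prop)
    refine h1.of_eq fun w => ?_
    constructor
    · rintro (h2 | ⟨d, h2, h3⟩) ⟨d', h4, h5, h6⟩
      · rw [h2] at h4
        cases h4
      · rw [h2] at h4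
        cases h4
        rcases h3 with h3 | h3
        · rw [h3] at h5
          cases h5
        · exact h3 h6
    · intro h2
      rcases hdw : Encodable.decode (α := List ℕ × List ℕ) w.unpair.2.unpair.1 with _ | d
      · exact Or.inl rfl
      · refine Or.inr ⟨d, rfl, ?_⟩
        by_cases h3 : q (w.unpair.1, d) w.unpair.2.unpair.2 = true
        · exact Or.inr fun h4 => h2 ⟨d, hdw, h3, h4⟩
        · exact Or.inl (by simpa using h3)
  · intro n
    rw [h n]
    constructor
    · rintro ⟨d, h1, h2⟩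
      obtain ⟨s, hs⟩ := (hq' (n, d)).1 h1
      refine ⟨Nat.pair (Encodable.encode d) s, d, ?_, ?_, h2⟩
      · simp only [Nat.unpair_pair, Encodable.encodek]
      · simp only [Nat.unpair_pair]
        exact hs
    · rintro ⟨t, d, h1, h2, h3⟩
      simp only [Nat.unpair_pair] at h1 h2
      exact ⟨d, (hq' (n, d)).2 ⟨_, h2⟩, h3⟩

/-- Complements of sets enumerable in `A` are enumerable in `J`. -/
def AboveJ (A J : Set ℕ) : Prop := ∀ p : ℕ → Prop, REIn A p → REIn J fun n => ¬ p n

theorem AboveJ.lift (hJ : AboveJ A J) {p : α → Prop} (hp : REIn A p) :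
    REIn J fun a => ¬ p a := by
  have h1 : REIn A fun n : ℕ => ∃ a : α, Encodable.encode a = n ∧ p a := by
    refine REIn.ex (S := fun (n : ℕ) (a : α) => Encodable.encode a = n ∧ p a) ?_
    refine REIn.and (REIn.of_re (RE.eq (Computable.encode.comp Computable.snd)
      Computable.fst)) ?_
    exact hp.comp (f := fun x : ℕ × α => x.2) Computable.snd
  refine ((hJ _ h1).comp (f := fun a : α => Encodable.encode a) Computable.encode).of_eq
    fun a => ?_
  constructor
  · intro h ha
    exact h ⟨a, rfl, ha⟩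
  · rintro h ⟨a', ha', hp'⟩
    rw [Encodable.encode_injective ha'] at hp'
    exact h hp'

theorem AboveJ.base (hJ : AboveJ A J) {p : α → Prop} (hp : REIn A p) : REIn J p := by
  refine re_trans ?_ ?_ hp
  · refine (hJ _ (REIn.not_mem (A := A) Computable.id)).of_eq fun n => ?_
    show ¬ (n ∉ A) ↔ n ∈ A
    exact not_not
  · exact hJ _ (REIn.mem (A := A) Computable.id)

end Pool.Agent.Run7.h353.PF
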