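import Mathlib
import Pool.Agent.Run7.h353.PF.Jump

/-! Solutions for all finite sums of colourings that are stable along a filter base. -/

namespace Pool.Agent.Run7.h353.PF

open Pool.Agent.Helper446 Pool.Agent.Helper446.RE Pool.Agent.Helper446.Oracle
open Pool.Agent.Run7.h353.PS

/-- A decreasing sequence of unbounded sets such that for every `x` in `D N` the sums `x + y` with
`y` in some `D M` are in `D N`. -/
def SumFilter (D : ℕ → Set ℕ) : Prop :=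
  (∀ N, D (N + 1) ⊆ D N) ∧ (∀ N b, ∃ x ∈ D N, b < x) ∧
    ∀ N, ∀ x ∈ D N, ∃ M, ∀ y ∈ D M, x + y ∈ D N

/-- For every `n` in `D 0` the colour of `n + y` is the same for all `y` in some `D M`. -/
def StableAlong {α : Type} (D : ℕ → Set ℕ) (c : ℕ → α) : Prop :=
  ∀ n ∈ D 0, ∃ M, ∀ y ∈ D M, ∀ z ∈ D M, c (n + y) = c (n + z)

variable {A J : Set ℕ} {c : ℕ → ℕ} {D : ℕ → Set ℕ}

theorem SumFilter.mono (hD : SumFilter D) {N M : ℕ} (h : N ≤ M) : D M ⊆ D N := by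
  induction M, h using Nat.le_induction with
  | base => exact subset_rfl
  | succ M _ ih => exact (hD.1 M).trans ih

/-- The limit colours. -/
theorem exists_limD (hD : SumFilter D) (h : StableAlong D c) :
    ∃ (ct : ℕ → ℕ) (m : ℕ → ℕ), (∀ n ∈ D 0, ∀ y ∈ D (m n), c (n + y) = ct n) ∧
      ∀ n ∈ D 0, ∀ y ∈ D (m n), n + y ∈ D 0 → ct (n + y) = ct n := by
  have h' : ∀ n, ∃ M, n ∈ D 0 → ∀ y ∈ D M, ∀ z ∈ D M, c (n + y) = c (n + z) := by
    intro n
    by_cases hn : n ∈ D 0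
    · obtain ⟨M, hM⟩ := h n hn
      exact ⟨M, fun _ => hM⟩
    · exact ⟨0, fun h1 => absurd h1 hn⟩
  choose m hc using h'
  have hy : ∀ n, ∃ y, y ∈ D (m n) := fun n => by
    obtain ⟨y, hy, _⟩ := hD.2.1 (m n) 0
    exact ⟨y, hy⟩
  choose y0 hy0 using hy
  have h1 : ∀ n ∈ D 0, ∀ y ∈ D (m n), c (n + y) = c (n + y0 n) :=
    fun n hn y hy => hc n hn y hy _ (hy0 n)
  refine ⟨fun n => c (n + y0 n), m, h1, ?_⟩
  intro n hn y hy hny
  obtain ⟨M, hM⟩ := hD.2.2 (m n) y hy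
  obtain ⟨z, hz, _⟩ := hD.2.1 (max M (m (n + y))) 0
  have e1 := h1 (n + y) hny z (hD.mono (le_max_right _ _) hz)
  have e2 := h1 n hn (y + z) (hM z (hD.mono (le_max_left _ _) hz))
  show c (n + y + y0 (n + y)) = c (n + y0 n)
  rw [← e1, ← e2, add_assoc]

/-- Some colour near `n` is different from `i`. -/
def QD (D : ℕ → Set ℕ) (c : ℕ → ℕ) (n M i : ℕ) : Prop := ∃ y, y ∈ D M ∧ c (n + y) ≠ i

theorem re_QD (hc' : REIn A fun x : ℕ × ℕ => c x.1 ≠ x.2)
    (hDA : REIn A fun x : ℕ × ℕ => x.2 ∈ D x.1) :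
    REIn A fun x : (ℕ × ℕ) × ℕ => QD D c x.1.1 x.1.2 x.2 := by
  refine REIn.ex (S := fun (x : (ℕ × ℕ) × ℕ) (y : ℕ) => y ∈ D x.1.2 ∧ c (x.1.1 + y) ≠ x.2) ?_
  refine REIn.and ?_ ?_
  · exact hDA.comp (f := fun x : ((ℕ × ℕ) × ℕ) × ℕ => (x.1.1.2, x.2)) (by fun_prop)
  · exact hc'.comp (f := fun x : ((ℕ × ℕ) × ℕ) × ℕ => (x.1.1.1 + x.2, x.1.2)) (by fun_prop)

/-- The limit colour at `n` is `i`. -/
def LimD (D : ℕ → Set ℕ) (c : ℕ → ℕ) (n i : ℕ) : Prop := ∃ M, ¬ QD D c n M i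

theorem re_LimD (hJ : AboveJ A J) (hc' : REIn A fun x : ℕ × ℕ => c x.1 ≠ x.2)
    (hDA : REIn A fun x : ℕ × ℕ => x.2 ∈ D x.1) :
    REIn J fun x : ℕ × ℕ => LimD D c x.1 x.2 := by
  refine REIn.ex (S := fun (x : ℕ × ℕ) (M : ℕ) => ¬ QD D c x.1 M x.2) ?_
  exact (hJ.lift (re_QD hc' hDA)).comp (f := fun x : (ℕ × ℕ) × ℕ => ((x.1.1, x.2), x.1.2))
    (by fun_prop)

theorem limD_iff (hD : SumFilter D) {ct m : ℕ → ℕ}
    (h1 : ∀ n ∈ D 0, ∀ y ∈ D (m n), c (n + y) = ct n) {n : ℕ} (hn : n ∈ D 0) {i : ℕ} :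
    LimD D c n i ↔ ct n = i := by
  constructor
  · rintro ⟨M, h⟩
    obtain ⟨y, hy, _⟩ := hD.2.1 (max M (m n)) 0
    rw [← h1 n hn y (hD.mono (le_max_right _ _) hy)]
    by_contra hcon
    exact h ⟨y, hD.mono (le_max_left _ _) hy, hcon⟩
  · rintro rfl
    refine ⟨m n, ?_⟩
    rintro ⟨y, hy, hne⟩
    exact hne (h1 n hn y hy)

/-- The main theorem. -/
theorem fullD (hcA : REIn A fun x : ℕ × ℕ => c x.1 = x.2)
    (hcA' : REIn A fun x : ℕ × ℕ => c x.1 ≠ x.2) {k : ℕ} (hk : ∀ n, c n < k)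
    (hD : SumFilter D) (hs : StableAlong D c) (hDA : REIn A fun x : ℕ × ℕ => x.2 ∈ D x.1)
    (hDA' : REIn A fun x : ℕ × ℕ => x.2 ∉ D x.1) (hJ : AboveJ A J) :
    ∃ H : Set ℕ, (REIn J (· ∈ H) ∧ REIn J (· ∉ H)) ∧ H.Infinite ∧ 0 ∉ H ∧ H ⊆ D 0 ∧
      ∃ e, ∀ F : Finset ℕ, (F : Set ℕ) ⊆ H → F.Nonempty → c (∑ n ∈ F, n) = e := by
  obtain ⟨ct, m, h1, h2⟩ := exists_limD hD hs
  have hL := fun {n i : ℕ} (hn : n ∈ D 0) => limD_iff (c := c) (i := i) hD h1 hn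
  -- the colour
  obtain ⟨e, he⟩ : ∃ e, ∀ N b, ∃ x ∈ D N, b < x ∧ c x = e ∧ ct x = e := by
    by_contra hcon
    push Not at hcon
    choose Ne be hbad using hcon
    obtain ⟨N, _, hN⟩ := exists_bd Ne (List.range k) 0
    obtain ⟨b, _, hb⟩ := exists_bd be (List.range k) 0
    obtain ⟨w, hw, hwb⟩ := hD.2.1 N b
    obtain ⟨M, hM⟩ := hD.2.2 N w hw
    obtain ⟨y, hy, _⟩ := hD.2.1 (max M (m w)) 0
    have hw0 : w ∈ D 0 := hD.mono (Nat.zero_le _) hw
    have hym : y ∈ D (m w) := hD.mono (le_max_right _ _) hy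
    have hwy : w + y ∈ D N := hM y (hD.mono (le_max_left _ _) hy)
    have e1 : c (w + y) = ct w := h1 w hw0 y hym
    have e2 : ct (w + y) = ct w := h2 w hw0 y hym (hD.mono (Nat.zero_le _) hwy)
    have hlt : ct w < k := by rw [← e1]; exact hk _
    have h3 := hN (ct w) (List.mem_range.2 hlt)
    have h4 := hb (ct w) (List.mem_range.2 hlt)
    exact hbad (ct w) (w + y) (hD.mono h3 hwy) (by omega) e1 e2
  -- relative enumerability
  have hLim := re_LimD hJ hcA' hDA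
  have hc1 : REIn J fun x : ℕ × ℕ => c x.1 = x.2 := hJ.base hcA
  have hc2 : REIn J fun x : ℕ × ℕ => c x.1 ≠ x.2 := hJ.base hcA'
  have hD1 : REIn J fun x : ℕ => x ∈ D 0 :=
    (hJ.base hDA).comp (f := fun x : ℕ => (0, x)) (by fun_prop)
  have hD2 : REIn J fun x : ℕ => x ∉ D 0 :=
    (hJ.base hDA').comp (f := fun x : ℕ => (0, x)) (by fun_prop)
  have hpos : REIn J fun x : ℕ => 0 < x := REIn.of_re (RE.lt (by fun_prop) (by fun_prop))
  have hzero : REIn J fun x : ℕ => x = 0 := REIn.of_re (RE.eq (by fun_prop) (by fun_prop))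
  have hP : REIn J fun x : ℕ => (0 < x ∧ x ∈ D 0) ∧ (c x = e ∧ ct x = e) := by
    refine ((hpos.and hD1).and ((hc1.comp (f := fun x : ℕ => (x, e)) (by fun_prop)).and
      (hLim.comp (f := fun x : ℕ => (x, e)) (by fun_prop)))).of_eq fun x => ?_
    constructor
    · rintro ⟨h3, h4, h5⟩; exact ⟨h3, h4, (hL h3.2).1 h5⟩
    · rintro ⟨h3, h4, h5⟩; exact ⟨h3, h4, (hL h3.2).2 h5⟩
  have hP' : REIn J fun x : ℕ => ¬ ((0 < x ∧ x ∈ D 0) ∧ (c x = e ∧ ct x = e)) := by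
    have h3 : REIn J fun x : ℕ => ∃ i, i ≠ e ∧ LimD D c x i := by
      refine REIn.ex (S := fun (x i : ℕ) => i ≠ e ∧ LimD D c x i) ?_
      exact (REIn.of_re (RE.ne (by fun_prop) (by fun_prop))).and hLim
    refine ((hzero.or hD2).or ((hc2.comp (f := fun x : ℕ => (x, e)) (by fun_prop)).or
      h3)).of_eq fun x => ?_
    constructor
    · rintro ((h4 | h4) | (h4 | ⟨i, h4, h5⟩)) ⟨⟨h6, h7⟩, h8, h9⟩
      · omega
      · exact h4 h7
      · exact h4 h8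
      · exact h4 (((hL h7).1 h5).symm.trans h9)
    · intro h4
      rcases Nat.eq_zero_or_pos x with h5 | h5
      · exact Or.inl (Or.inl h5)
      · by_cases h5' : x ∈ D 0
        · right
          by_cases h6 : c x = e
          · exact Or.inr ⟨ct x, fun h7 => h4 ⟨⟨h5, h5'⟩, h6, h7⟩, (hL h5').2 rfl⟩
          · exact Or.inl h6
        · exact Or.inl (Or.inr h5')
  have hbnd : Computable fun x : ℕ × ℕ => (x.1 + 1) * (x.1 + 1) :=
    (Primrec.nat_mul.comp (Primrec.succ.comp Primrec.fst)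
      (Primrec.succ.comp Primrec.fst)).to_comp
  have hR : REIn J fun x : ℕ × ℕ => ∀ s < (x.1 + 1) * (x.1 + 1), s ∈ D 0 →
      (s + x.2 ∈ D 0 ∧ (c (s + x.2) = ct s ∧ ct (s + x.2) = ct s)) := by
    have h3 : REIn J fun x : ℕ × ℕ => ∀ s < (x.1 + 1) * (x.1 + 1),
        (s ∉ D 0 ∨ (s + x.2 ∈ D 0 ∧ ∃ i, LimD D c s i ∧ (c (s + x.2) = i ∧
          LimD D c (s + x.2) i))) := by
      refine REIn.all_lt (S := fun (x : ℕ × ℕ) (s : ℕ) =>
        (s ∉ D 0 ∨ (s + x.2 ∈ D 0 ∧ ∃ i, LimD D c s i ∧ (c (s + x.2) = i ∧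
          LimD D c (s + x.2) i)))) ?_ hbnd
      refine REIn.or (hD2.comp (f := fun x : (ℕ × ℕ) × ℕ => x.2) (by fun_prop)) ?_
      refine REIn.and (hD1.comp (f := fun x : (ℕ × ℕ) × ℕ => x.2 + x.1.2) (by fun_prop)) ?_
      refine REIn.ex (S := fun (x : (ℕ × ℕ) × ℕ) (i : ℕ) => LimD D c x.2 i ∧
        (c (x.2 + x.1.2) = i ∧ LimD D c (x.2 + x.1.2) i)) ?_
      refine REIn.and ?_ (REIn.and ?_ ?_)
      · exact hLim.comp (f := fun x : ((ℕ × ℕ) × ℕ) × ℕ => (x.1.2, x.2)) (by fun_prop)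
      · exact hc1.comp (f := fun x : ((ℕ × ℕ) × ℕ) × ℕ => (x.1.2 + x.1.1.2, x.2))
          (by fun_prop)
      · exact hLim.comp (f := fun x : ((ℕ × ℕ) × ℕ) × ℕ => (x.1.2 + x.1.1.2, x.2))
          (by fun_prop)
    refine h3.of_eq fun x => ?_
    constructor
    · intro h4 s hs hs0
      rcases h4 s hs with h5 | ⟨h5, i, h6, h7, h8⟩
      · exact absurd hs0 h5
      · rw [(hL hs0).1 h6]
        exact ⟨h5, h7, (hL h5).1 h8⟩
    · intro h4 s hs
      by_cases hs0 : s ∈ D 0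
      · obtain ⟨h5, h6, h7⟩ := h4 s hs hs0
        exact Or.inr ⟨h5, ct s, (hL hs0).2 rfl, h6, (hL h5).2 h7⟩
      · exact Or.inl hs0
  have hR' : REIn J fun x : ℕ × ℕ => ¬ ∀ s < (x.1 + 1) * (x.1 + 1), s ∈ D 0 →
      (s + x.2 ∈ D 0 ∧ (c (s + x.2) = ct s ∧ ct (s + x.2) = ct s)) := by
    have h3 : REIn J fun x : ℕ × ℕ => ∃ s, s < (x.1 + 1) * (x.1 + 1) ∧ (s ∈ D 0 ∧
        (s + x.2 ∉ D 0 ∨ (s + x.2 ∈ D 0 ∧ ∃ i, LimD D c s i ∧ (c (s + x.2) ≠ i ∨
          ∃ j, j ≠ i ∧ LimD D c (s + x.2) j)))) := by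
      refine REIn.ex (S := fun (x : ℕ × ℕ) (s : ℕ) => s < (x.1 + 1) * (x.1 + 1) ∧ (s ∈ D 0 ∧
        (s + x.2 ∉ D 0 ∨ (s + x.2 ∈ D 0 ∧ ∃ i, LimD D c s i ∧ (c (s + x.2) ≠ i ∨
          ∃ j, j ≠ i ∧ LimD D c (s + x.2) j))))) ?_
      refine REIn.and (REIn.of_re (RE.lt (by fun_prop) ?_)) (REIn.and
        (hD1.comp (f := fun x : (ℕ × ℕ) × ℕ => x.2) (by fun_prop)) ?_)
      · exact (Primrec.nat_mul.comp (Primrec.succ.comp (Primrec.fst.comp Primrec.fst))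
          (Primrec.succ.comp (Primrec.fst.comp Primrec.fst))).to_comp
      refine REIn.or (hD2.comp (f := fun x : (ℕ × ℕ) × ℕ => x.2 + x.1.2) (by fun_prop)) ?_
      refine REIn.and (hD1.comp (f := fun x : (ℕ × ℕ) × ℕ => x.2 + x.1.2) (by fun_prop)) ?_
      refine REIn.ex (S := fun (x : (ℕ × ℕ) × ℕ) (i : ℕ) => LimD D c x.2 i ∧
        (c (x.2 + x.1.2) ≠ i ∨ ∃ j, j ≠ i ∧ LimD D c (x.2 + x.1.2) j)) ?_
      refine REIn.and ?_ (REIn.or ?_ ?_)
      · exact hLim.comp (f := fun x : ((ℕ × ℕ) × ℕ) × ℕ => (x.1.2, x.2)) (by fun_prop)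
      · exact hc2.comp (f := fun x : ((ℕ × ℕ) × ℕ) × ℕ => (x.1.2 + x.1.1.2, x.2))
          (by fun_prop)
      · refine REIn.ex (S := fun (x : ((ℕ × ℕ) × ℕ) × ℕ) (j : ℕ) => j ≠ x.2 ∧
          LimD D c (x.1.2 + x.1.1.2) j) ?_
        refine REIn.and (REIn.of_re (RE.ne (by fun_prop) (by fun_prop))) ?_
        exact hLim.comp (f := fun x : (((ℕ × ℕ) × ℕ) × ℕ) × ℕ =>
          (x.1.1.2 + x.1.1.1.2, x.2)) (by fun_prop)
    refine h3.of_eq fun x => ?_
    constructor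
    · rintro ⟨s, hs, hs0, h4⟩ hall
      obtain ⟨h5, h6, h7⟩ := hall s hs hs0
      rcases h4 with h4 | ⟨_, i, h8, h9⟩
      · exact h4 h5
      · rw [(hL hs0).1 h8] at h6 h7
        rcases h9 with h9 | ⟨j, h9, h10⟩
        · exact h9 h6
        · exact h9 (((hL h5).1 h10).symm.trans h7)
    · intro h4
      push Not at h4
      obtain ⟨s, hs, hs0, h5⟩ := h4
      refine ⟨s, hs, hs0, ?_⟩
      by_cases h6 : s + x.2 ∈ D 0
      · refine Or.inr ⟨h6, ct s, (hL hs0).2 rfl, ?_⟩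
        by_cases h7 : c (s + x.2) = ct s
        · exact Or.inr ⟨ct (s + x.2), h5 h6 h7, (hL h6).2 rfl⟩
        · exact Or.inl h7
      · exact Or.inl h6
  -- the greedy construction
  obtain ⟨H, h3, h4, h5, h6⟩ := greedyIn (A := J)
    (P := fun x => (0 < x ∧ x ∈ D 0) ∧ (c x = e ∧ ct x = e))
    (R := fun z x => ∀ s < (z + 1) * (z + 1), s ∈ D 0 →
      (s + x ∈ D 0 ∧ (c (s + x) = ct s ∧ ct (s + x) = ct s)))
    hP hP' hR hR' (by
      intro l _ b
      obtain ⟨K, _, hK⟩ := exists_bd (fun z => (z + 1) * (z + 1)) l 0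
      have hadd : ∀ s, ∃ M, s ∈ D 0 → ∀ y ∈ D M, s + y ∈ D 0 := by
        intro s
        by_cases hs0 : s ∈ D 0
        · obtain ⟨M, hM⟩ := hD.2.2 0 s hs0
          exact ⟨M, fun _ => hM⟩
        · exact ⟨0, fun h => absurd h hs0⟩
      choose a ha using hadd
      obtain ⟨N1, _, hN1⟩ := exists_bd m (List.range K) 0
      obtain ⟨N2, _, hN2⟩ := exists_bd a (List.range K) 0
      obtain ⟨x, hx, hbx, hcx, hctx⟩ := he (max N1 N2) b
      refine ⟨x, hbx, ⟨⟨by omega, hD.mono (Nat.zero_le _) hx⟩, hcx, hctx⟩,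
        fun z hz s hs hs0 => ?_⟩
      have hsK : s < K := by
        have := hK z hz
        omega
      have h7 : x ∈ D (m s) := hD.mono ((hN1 s (List.mem_range.2 hsK)).trans
        (le_max_left _ _)) hx
      have h8 : x ∈ D (a s) := hD.mono ((hN2 s (List.mem_range.2 hsK)).trans
        (le_max_right _ _)) hx
      have h9 := ha s hs0 x h8
      exact ⟨h9, h1 s hs0 x h7, h2 s hs0 x h7 h9⟩)
  refine ⟨H, h3, h4, fun h0 => by have := (h5 0 h0).1.1; omega, fun x hx => (h5 x hx).1.2, e, ?_⟩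
  have key : ∀ F : Finset ℕ, (F : Set ℕ) ⊆ H → F.Nonempty →
      c (∑ n ∈ F, n) = e ∧ ct (∑ n ∈ F, n) = e ∧ ∑ n ∈ F, n ∈ D 0 := by
    intro F
    induction F using Finset.induction_on_max with
    | empty => exact fun _ h => absurd h (by simp)
    | insert a s hmax ih =>
      intro hF _
      have haH : a ∈ H := hF (by simp)
      have hsH : (s : Set ℕ) ⊆ H := fun x hx => hF (by
        simp only [Finset.coe_insert, Set.mem_insert_iff]
        exact Or.inr hx)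
      have has : a ∉ s := fun h => absurd (hmax a h) (lt_irrefl _)
      rw [Finset.sum_insert has]
      obtain ⟨⟨_, p1⟩, p2, p3⟩ := h5 a haH
      rcases s.eq_empty_or_nonempty with rfl | hne
      · simp only [Finset.sum_empty, add_zero]
        exact ⟨p2, p3, p1⟩
      · obtain ⟨i1, i2, i3⟩ := ih hsH hne
        set S := ∑ n ∈ s, n with hS
        set z := s.max' hne with hz
        have hzs : z ∈ s := s.max'_mem hne
        have hSz : S < (z + 1) * (z + 1) := by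
          have hle : S ≤ s.card • z := Finset.sum_le_card_nsmul s _ z fun x hx =>
            s.le_max' x hx
          have hcard : s.card ≤ z + 1 := by
            have hsub : s ⊆ Finset.range (z + 1) := fun x hx =>
              Finset.mem_range.2 (Nat.lt_succ_of_le (s.le_max' x hx))
            have := Finset.card_le_card hsub
            rwa [Finset.card_range] at this
          rw [smul_eq_mul] at hle
          calc S ≤ s.card * z := hle
            _ ≤ (z + 1) * z := Nat.mul_le_mul_right _ hcard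
            _ < (z + 1) * (z + 1) := Nat.mul_lt_mul_of_pos_left (Nat.lt_succ_self z)
                (Nat.succ_pos z)
        obtain ⟨r1, r2, r3⟩ := h6 z (hsH hzs) a haH (hmax z hzs) S hSz i3
        rw [add_comm a S]
        exact ⟨r2.trans i2, r3.trans i2, r1⟩
  exact fun F hF hne => (key F hF hne).1

end Pool.Agent.Run7.h353.PF
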