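import Mathlib
import Pool.Agent.Run7.h353.PF.Gen
import Pool.Agent.H645R2.C3.Comp

/-! The finite sums of the tails of a set. -/

namespace Pool.Agent.Run7.h353.PF

open Pool.Agent.Helper446 Pool.Agent.Helper446.RE Pool.Agent.Helper446.Oracle
open Pool.Agent.Run7.h353.PS Pool.Agent.H645R2.C3

/-- The sums of finitely many (at least one) distinct elements `≥ N` of `H`. -/
def FsT (H : Set ℕ) (N : ℕ) : Set ℕ :=
  {y | ∃ F : Finset ℕ, F.Nonempty ∧ (∀ x ∈ F, x ∈ H ∧ N ≤ x) ∧ ∑ x ∈ F, x = y}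

theorem fsT_filter {H : Set ℕ} (hH : H.Infinite) : SumFilter (FsT H) := by
  refine ⟨?_, ?_, ?_⟩
  · rintro N y ⟨F, h1, h2, h3⟩
    exact ⟨F, h1, fun x hx => ⟨(h2 x hx).1, by have := (h2 x hx).2; omega⟩, h3⟩
  · intro N b
    obtain ⟨x, hx, hx'⟩ := hH.exists_gt (max N b)
    have h1 : N < x := lt_of_le_of_lt (le_max_left _ _) hx'
    have h2 : b < x := lt_of_le_of_lt (le_max_right _ _) hx'
    exact ⟨x, ⟨{x}, by simp, by simpa using ⟨hx, h1.le⟩, by simp⟩, h2⟩
  · rintro N x ⟨F, h1, h2, rfl⟩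
    refine ⟨N + F.sup id + 1, ?_⟩
    rintro y ⟨G, g1, g2, rfl⟩
    have hdis : Disjoint F G := by
      rw [Finset.disjoint_left]
      intro w hw hw'
      have h3 : w ≤ F.sup id := Finset.le_sup (f := id) hw
      have := (g2 w hw').2
      omega
    refine ⟨F ∪ G, h1.mono Finset.subset_union_left, ?_, Finset.sum_union hdis⟩
    intro w hw
    rcases Finset.mem_union.1 hw with hw | hw
    · exact h2 w hw
    · exact ⟨(g2 w hw).1, by have := (g2 w hw).2; omega⟩

theorem exists_code (m : ℕ) : ∀ F : Finset ℕ, F ⊆ Finset.range m → ∃ b < 2 ^ m,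
    ∀ i, i ∈ L b ↔ i ∈ F := by
  induction m with
  | zero =>
    intro F hF
    have : F = ∅ := by simpa using hF
    subst this
    refine ⟨0, by norm_num, fun i => ?_⟩
    rw [mem_L]
    simp [dg]
  | succ m ih =>
    intro F hF
    obtain ⟨b, hb, hbi⟩ := ih (F.erase m) (by
      intro i hi
      have h1 := Finset.mem_range.1 (hF (Finset.mem_of_mem_erase hi))
      have h2 := Finset.ne_of_mem_erase hi
      exact Finset.mem_range.2 (by omega))
    by_cases hm : m ∈ F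
    · refine ⟨b + 2 ^ m * 1, by rw [pow_succ]; omega, fun i => ?_⟩
      rw [mem_L]
      rcases lt_trichotomy i m with hi | hi | hi
      · rw [dg_add_low hi, ← mem_L, hbi, Finset.mem_erase]
        exact ⟨fun h => h.2, fun h => ⟨hi.ne, h⟩⟩
      · subst hi
        rw [dg_add_high hb le_rfl]
        refine ⟨fun _ => hm, fun _ => ?_⟩
        unfold dg
        rw [mul_one, Nat.div_self (by positivity)]
        norm_num
      · rw [dg_add_high hb hi.le]
        have h1 : dg i (2 ^ m * 1) = 0 := by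
          refine dg_of_lt_pow (K := m + 1) ?_ hi
          rw [mul_one, pow_succ]
          have : 0 < 2 ^ m := by positivity
          omega
        rw [h1]
        refine ⟨fun h => absurd rfl h, fun h => ?_⟩
        have := Finset.mem_range.1 (hF h)
        omega
    · refine ⟨b, by rw [pow_succ]; omega, fun i => ?_⟩
      rw [hbi, Finset.mem_erase]
      exact ⟨fun h => h.2, fun h => ⟨fun h' => hm (h' ▸ h), h⟩⟩

theorem c_sum : Computable fun b : ℕ => (L b).sum := by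
  have h : Computable fun b : ℕ => (L b).foldl (fun (st : ℕ) x => st + x) 0 := by
    refine RE.list_foldl (h := fun (_ : ℕ) (p : ℕ × ℕ) => p.1 + p.2) (c_L Computable.id)
      (Computable.const _) ?_
    unfold Computable₂
    exact (Primrec.nat_add.comp (Primrec.fst.comp Primrec.snd)
      (Primrec.snd.comp Primrec.snd)).to_comp
  refine h.of_eq fun b => ?_
  rw [List.sum_eq_foldl]

theorem fsT_iff {H : Set ℕ} {N y : ℕ} : y ∈ FsT H N ↔ ∃ b, b < 2 ^ (y + 1) ∧
    (((L b).sum = y ∧ L b ≠ []) ∧ ∀ x ∈ L b, x ∈ H ∧ N ≤ x) := by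
  constructor
  · rintro ⟨F, h1, h2, h3⟩
    have hF : F ⊆ Finset.range (y + 1) := by
      intro x hx
      rw [Finset.mem_range, ← h3]
      exact Nat.lt_succ_of_le (Finset.single_le_sum (f := fun x => x) (fun _ _ => Nat.zero_le _) hx)
    obtain ⟨b, hb, hbi⟩ := exists_code (y + 1) F hF
    have hFb : F = (L b).toFinset := by
      ext i
      rw [List.mem_toFinset, hbi]
    have hnd : (L b).Nodup := (L_sorted b).nodup
    refine ⟨b, hb, ⟨?_, ?_⟩, fun x hx => h2 x ((hbi x).1 hx)⟩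
    · rw [← h3, hFb, List.sum_toFinset (fun x => x) hnd]
      simp
    · intro hnil
      obtain ⟨x, hx⟩ := h1
      have := (hbi x).2 hx
      rw [hnil] at this
      simp at this
  · rintro ⟨b, _, ⟨h1, h2⟩, h3⟩
    have hnd : (L b).Nodup := (L_sorted b).nodup
    refine ⟨(L b).toFinset, ?_, fun x hx => h3 x (List.mem_toFinset.1 hx), ?_⟩
    · obtain ⟨x, hx⟩ := List.exists_mem_of_ne_nil _ h2
      exact ⟨x, List.mem_toFinset.2 hx⟩
    · rw [List.sum_toFinset (fun x => x) hnd]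
      simpa using h1

theorem re_fsT {A H : Set ℕ} (h1 : REIn A (· ∈ H)) (h2 : REIn A (· ∉ H)) :
    (REIn A fun p : ℕ × ℕ => p.2 ∈ FsT H p.1) ∧ REIn A fun p : ℕ × ℕ => p.2 ∉ FsT H p.1 := by
  have hpow : Computable fun p : ℕ × ℕ => 2 ^ (p.2 + 1) :=
    (pr_pow2.comp (Primrec.succ.comp Primrec.snd)).to_comp
  have hsum : Computable fun x : (ℕ × ℕ) × ℕ => (L x.2).sum := c_sum.comp Computable.snd
  have hL : Computable fun x : (ℕ × ℕ) × ℕ => L x.2 := c_L Computable.snd
  constructor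
  · have h : REIn A fun p : ℕ × ℕ => ∃ b, b < 2 ^ (p.2 + 1) ∧
        (((L b).sum = p.2 ∧ L b ≠ []) ∧ ∀ x ∈ L b, x ∈ H ∧ p.1 ≤ x) := by
      refine REIn.ex (S := fun (p : ℕ × ℕ) (b : ℕ) => b < 2 ^ (p.2 + 1) ∧
        (((L b).sum = p.2 ∧ L b ≠ []) ∧ ∀ x ∈ L b, x ∈ H ∧ p.1 ≤ x)) ?_
      refine REIn.and (REIn.of_re (RE.lt Computable.snd (hpow.comp Computable.fst)))
        (REIn.and (REIn.of_re (RE.and (RE.eq hsum (by fun_prop))
          (RE.ne hL (Computable.const [])))) ?_)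
      refine REIn.all_mem (S := fun (y : (ℕ × ℕ) × ℕ) (x : ℕ) => x ∈ H ∧ y.1.1 ≤ x) ?_ hL
      exact (h1.comp (f := fun y : ((ℕ × ℕ) × ℕ) × ℕ => y.2) (by fun_prop)).and
        (REIn.of_re (RE.le (by fun_prop) (by fun_prop)))
    exact h.of_eq fun p => fsT_iff.symm
  · have h : REIn A fun p : ℕ × ℕ => ∀ b < 2 ^ (p.2 + 1),
        (((L b).sum ≠ p.2 ∨ L b = []) ∨ ∃ x, x ∈ L b ∧ (x ∉ H ∨ x < p.1)) := by
      refine REIn.all_lt (S := fun (p : ℕ × ℕ) (b : ℕ) =>
        (((L b).sum ≠ p.2 ∨ L b = []) ∨ ∃ x, x ∈ L b ∧ (x ∉ H ∨ x < p.1))) ?_ hpow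
      refine REIn.or (REIn.of_re (RE.or (RE.ne hsum (by fun_prop))
        (RE.eq hL (Computable.const [])))) ?_
      refine REIn.ex (S := fun (y : (ℕ × ℕ) × ℕ) (x : ℕ) => x ∈ L y.2 ∧
        (x ∉ H ∨ x < y.1.1)) ?_
      refine REIn.and (REIn.of_re (RE.mem_list (f := fun y : ((ℕ × ℕ) × ℕ) × ℕ => y.2)
        (l := fun y : ((ℕ × ℕ) × ℕ) × ℕ => L y.1.2) (by fun_prop)
        (c_L (Computable.snd.comp Computable.fst)))) (REIn.or ?_ ?_)
      · exact h2.comp (f := fun y : ((ℕ × ℕ) × ℕ) × ℕ => y.2) (by fun_prop)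
      · exact REIn.of_re (RE.lt (by fun_prop) (by fun_prop))
    refine h.of_eq fun p => ?_
    rw [fsT_iff]
    constructor
    · rintro h3 ⟨b, hb, ⟨h4, h5⟩, h6⟩
      rcases h3 b hb with (h7 | h7) | ⟨x, hx, h7⟩
      · exact h7 h4
      · exact h5 h7
      · obtain ⟨h8, h9⟩ := h6 x hx
        rcases h7 with h7 | h7
        · exact h7 h8
        · omega
    · intro h3 b hb
      by_contra hcon
      push Not at hcon
      exact h3 ⟨b, hb, hcon.1, hcon.2⟩

end Pool.Agent.Run7.h353.PF
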