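import Mathlib
import Pool.Agent.Run7.h353.PF.Fs

/-! Solutions whose finite sums refine the given sequence of sets. -/

namespace Pool.Agent.Run7.h353.PF

open Pool.Agent.Helper446 Pool.Agent.Helper446.RE Pool.Agent.Helper446.Oracle
open Pool.Agent.Run7.h353.PS

variable {A J : Set ℕ} {c : ℕ → ℕ} {D : ℕ → Set ℕ}

theorem sum_lt_sq {s : Finset ℕ} (hne : s.Nonempty) :
    ∑ n ∈ s, n < (s.max' hne + 1) * (s.max' hne + 1) := by
  set z := s.max' hne with hz
  have hle : ∑ n ∈ s, n ≤ s.card • z := Finset.sum_le_card_nsmul s _ z fun x hx =>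
    s.le_max' x hx
  have hcard : s.card ≤ z + 1 := by
    have hsub : s ⊆ Finset.range (z + 1) := fun x hx =>
      Finset.mem_range.2 (Nat.lt_succ_of_le (s.le_max' x hx))
    have := Finset.card_le_card hsub
    rwa [Finset.card_range] at this
  rw [smul_eq_mul] at hle
  calc ∑ n ∈ s, n ≤ s.card * z := hle
    _ ≤ (z + 1) * z := Nat.mul_le_mul_right _ hcard
    _ < (z + 1) * (z + 1) := Nat.mul_lt_mul_of_pos_left (Nat.lt_succ_self z)
        (Nat.succ_pos z)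

/-- The main theorem. -/
theorem fullE (hcA : REIn A fun x : ℕ × ℕ => c x.1 = x.2)
    (hcA' : REIn A fun x : ℕ × ℕ => c x.1 ≠ x.2) {k : ℕ} (hk : ∀ n, c n < k)
    (hD : SumFilter D) (hs : StableAlong D c) (hDA : REIn A fun x : ℕ × ℕ => x.2 ∈ D x.1)
    (hDA' : REIn A fun x : ℕ × ℕ => x.2 ∉ D x.1) (hJ : AboveJ A J) :
    ∃ H : Set ℕ, (REIn J (· ∈ H) ∧ REIn J (· ∉ H)) ∧ H.Infinite ∧ 0 ∉ H ∧
      (∃ e, ∀ F : Finset ℕ, (F : Set ℕ) ⊆ H → F.Nonempty →
        c (∑ n ∈ F, n) = e ∧ ∑ n ∈ F, n ∈ D 0) ∧ ∀ M, ∃ N, FsT H N ⊆ D M := by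
  obtain ⟨ct, m, h1, h2⟩ := exists_limD hD hs
  have hL := fun {n i : ℕ} (hn : n ∈ D 0) => limD_iff (c := c) (i := i) hD h1 hn
  -- the colour
  obtain ⟨e, he⟩ : ∃ e, ∀ N b, ∃ x ∈ D N, b < x ∧ c x = e ∧ ct x = e := by
    by_contra hcon
    push Not at hcon
    choose Ne be hbad using hcon
    obtain ⟨N, _, hN⟩ := exists_bd Ne (List.range k) 0
    obtain ⟨b, _, hb⟩ := exists_bd be (List.range k) 0
    obtain ⟨w, hw, hwb⟩ := hD.2.1 N b
    obtain ⟨M, hM⟩ := hD.2.2 N w hw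
    obtain ⟨y, hy, _⟩ := hD.2.1 (max M (m w)) 0
    have hw0 : w ∈ D 0 := hD.mono (Nat.zero_le _) hw
    have hym : y ∈ D (m w) := hD.mono (le_max_right _ _) hy
    have hwy : w + y ∈ D N := hM y (hD.mono (le_max_left _ _) hy)
    have e1 : c (w + y) = ct w := h1 w hw0 y hym
    have e2 : ct (w + y) = ct w := h2 w hw0 y hym (hD.mono (Nat.zero_le _) hwy)
    have hlt : ct w < k := by rw [← e1]; exact hk _
    have h3 := hN (ct w) (List.mem_range.2 hlt)
    have h4 := hb (ct w) (List.mem_range.2 hlt)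
    exact hbad (ct w) (w + y) (hD.mono h3 hwy) (by omega) e1 e2
  -- relative enumerability
  have hLim := re_LimD hJ hcA' hDA
  have hc1 : REIn J fun x : ℕ × ℕ => c x.1 = x.2 := hJ.base hcA
  have hc2 : REIn J fun x : ℕ × ℕ => c x.1 ≠ x.2 := hJ.base hcA'
  have hD1 : REIn J fun x : ℕ => x ∈ D 0 :=
    (hJ.base hDA).comp (f := fun x : ℕ => (0, x)) (by fun_prop)
  have hD2 : REIn J fun x : ℕ => x ∉ D 0 :=
    (hJ.base hDA').comp (f := fun x : ℕ => (0, x)) (by fun_prop)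
  have hpos : REIn J fun x : ℕ => 0 < x := REIn.of_re (RE.lt (by fun_prop) (by fun_prop))
  have hzero : REIn J fun x : ℕ => x = 0 := REIn.of_re (RE.eq (by fun_prop) (by fun_prop))
  have hP : REIn J fun x : ℕ => (0 < x ∧ x ∈ D 0) ∧ (c x = e ∧ ct x = e) := by
    refine ((hpos.and hD1).and ((hc1.comp (f := fun x : ℕ => (x, e)) (by fun_prop)).and
      (hLim.comp (f := fun x : ℕ => (x, e)) (by fun_prop)))).of_eq fun x => ?_
    constructor
    · rintro ⟨h3, h4, h5⟩; exact ⟨h3, h4, (hL h3.2).1 h5⟩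
    · rintro ⟨h3, h4, h5⟩; exact ⟨h3, h4, (hL h3.2).2 h5⟩
  have hP' : REIn J fun x : ℕ => ¬ ((0 < x ∧ x ∈ D 0) ∧ (c x = e ∧ ct x = e)) := by
    have h3 : REIn J fun x : ℕ => ∃ i, i ≠ e ∧ LimD D c x i := by
      refine REIn.ex (S := fun (x i : ℕ) => i ≠ e ∧ LimD D c x i) ?_
      exact (REIn.of_re (RE.ne (by fun_prop) (by fun_prop))).and hLim
    refine ((hzero.or hD2).or ((hc2.comp (f := fun x : ℕ => (x, e)) (by fun_prop)).or
      h3)).of_eq fun x => ?_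
    constructor
    · rintro ((h4 | h4) | (h4 | ⟨i, h4, h5⟩)) ⟨⟨h6, h7⟩, h8, h9⟩
      · omega
      · exact h4 h7
      · exact h4 h8
      · exact h4 (((hL h7).1 h5).symm.trans h9)
    · intro h4
      rcases Nat.eq_zero_or_pos x with h5 | h5
      · exact Or.inl (Or.inl h5)
      · by_cases h5' : x ∈ D 0
        · right
          by_cases h6 : c x = e
          · exact Or.inr ⟨ct x, fun h7 => h4 ⟨⟨h5, h5'⟩, h6, h7⟩, (hL h5').2 rfl⟩
          · exact Or.inl h6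
        · exact Or.inl (Or.inr h5')
  have hbnd : Computable fun x : ℕ × ℕ => (x.1 + 1) * (x.1 + 1) :=
    (Primrec.nat_mul.comp (Primrec.succ.comp Primrec.fst)
      (Primrec.succ.comp Primrec.fst)).to_comp
  have hR : REIn J fun x : ℕ × ℕ => ∀ s < (x.1 + 1) * (x.1 + 1), s ∈ D 0 →
      (s + x.2 ∈ D 0 ∧ (c (s + x.2) = ct s ∧ ct (s + x.2) = ct s)) := by
    have h3 : REIn J fun x : ℕ × ℕ => ∀ s < (x.1 + 1) * (x.1 + 1),
        (s ∉ D 0 ∨ (s + x.2 ∈ D 0 ∧ ∃ i, LimD D c s i ∧ (c (s + x.2) = i ∧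
          LimD D c (s + x.2) i))) := by
      refine REIn.all_lt (S := fun (x : ℕ × ℕ) (s : ℕ) =>
        (s ∉ D 0 ∨ (s + x.2 ∈ D 0 ∧ ∃ i, LimD D c s i ∧ (c (s + x.2) = i ∧
          LimD D c (s + x.2) i)))) ?_ hbnd
      refine REIn.or (hD2.comp (f := fun x : (ℕ × ℕ) × ℕ => x.2) (by fun_prop)) ?_
      refine REIn.and (hD1.comp (f := fun x : (ℕ × ℕ) × ℕ => x.2 + x.1.2) (by fun_prop)) ?_
      refine REIn.ex (S := fun (x : (ℕ × ℕ) × ℕ) (i : ℕ) => LimD D c x.2 i ∧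
        (c (x.2 + x.1.2) = i ∧ LimD D c (x.2 + x.1.2) i)) ?_
      refine REIn.and ?_ (REIn.and ?_ ?_)
      · exact hLim.comp (f := fun x : ((ℕ × ℕ) × ℕ) × ℕ => (x.1.2, x.2)) (by fun_prop)
      · exact hc1.comp (f := fun x : ((ℕ × ℕ) × ℕ) × ℕ => (x.1.2 + x.1.1.2, x.2))
          (by fun_prop)
      · exact hLim.comp (f := fun x : ((ℕ × ℕ) × ℕ) × ℕ => (x.1.2 + x.1.1.2, x.2))
          (by fun_prop)
    refine h3.of_eq fun x => ?_
    constructor
    · intro h4 s hs hs0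
      rcases h4 s hs with h5 | ⟨h5, i, h6, h7, h8⟩
      · exact absurd hs0 h5
      · rw [(hL hs0).1 h6]
        exact ⟨h5, h7, (hL h5).1 h8⟩
    · intro h4 s hs
      by_cases hs0 : s ∈ D 0
      · obtain ⟨h5, h6, h7⟩ := h4 s hs hs0
        exact Or.inr ⟨h5, ct s, (hL hs0).2 rfl, h6, (hL h5).2 h7⟩
      · exact Or.inl hs0
  have hR' : REIn J fun x : ℕ × ℕ => ¬ ∀ s < (x.1 + 1) * (x.1 + 1), s ∈ D 0 →
      (s + x.2 ∈ D 0 ∧ (c (s + x.2) = ct s ∧ ct (s + x.2) = ct s)) := by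
    have h3 : REIn J fun x : ℕ × ℕ => ∃ s, s < (x.1 + 1) * (x.1 + 1) ∧ (s ∈ D 0 ∧
        (s + x.2 ∉ D 0 ∨ (s + x.2 ∈ D 0 ∧ ∃ i, LimD D c s i ∧ (c (s + x.2) ≠ i ∨
          ∃ j, j ≠ i ∧ LimD D c (s + x.2) j)))) := by
      refine REIn.ex (S := fun (x : ℕ × ℕ) (s : ℕ) => s < (x.1 + 1) * (x.1 + 1) ∧ (s ∈ D 0 ∧
        (s + x.2 ∉ D 0 ∨ (s + x.2 ∈ D 0 ∧ ∃ i, LimD D c s i ∧ (c (s + x.2) ≠ i ∨
          ∃ j, j ≠ i ∧ LimD D c (s + x.2) j))))) ?_
      refine REIn.and (REIn.of_re (RE.lt (by fun_prop) ?_)) (REIn.and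
        (hD1.comp (f := fun x : (ℕ × ℕ) × ℕ => x.2) (by fun_prop)) ?_)
      · exact (Primrec.nat_mul.comp (Primrec.succ.comp (Primrec.fst.comp Primrec.fst))
          (Primrec.succ.comp (Primrec.fst.comp Primrec.fst))).to_comp
      refine REIn.or (hD2.comp (f := fun x : (ℕ × ℕ) × ℕ => x.2 + x.1.2) (by fun_prop)) ?_
      refine REIn.and (hD1.comp (f := fun x : (ℕ × ℕ) × ℕ => x.2 + x.1.2) (by fun_prop)) ?_
      refine REIn.ex (S := fun (x : (ℕ × ℕ) × ℕ) (i : ℕ) => LimD D c x.2 i ∧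
        (c (x.2 + x.1.2) ≠ i ∨ ∃ j, j ≠ i ∧ LimD D c (x.2 + x.1.2) j)) ?_
      refine REIn.and ?_ (REIn.or ?_ ?_)
      · exact hLim.comp (f := fun x : ((ℕ × ℕ) × ℕ) × ℕ => (x.1.2, x.2)) (by fun_prop)
      · exact hc2.comp (f := fun x : ((ℕ × ℕ) × ℕ) × ℕ => (x.1.2 + x.1.1.2, x.2))
          (by fun_prop)
      · refine REIn.ex (S := fun (x : ((ℕ × ℕ) × ℕ) × ℕ) (j : ℕ) => j ≠ x.2 ∧
          LimD D c (x.1.2 + x.1.1.2) j) ?_
        refine REIn.and (REIn.of_re (RE.ne (by fun_prop) (by fun_prop))) ?_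
        exact hLim.comp (f := fun x : (((ℕ × ℕ) × ℕ) × ℕ) × ℕ =>
          (x.1.1.2 + x.1.1.1.2, x.2)) (by fun_prop)
    refine h3.of_eq fun x => ?_
    constructor
    · rintro ⟨s, hs, hs0, h4⟩ hall
      obtain ⟨h5, h6, h7⟩ := hall s hs hs0
      rcases h4 with h4 | ⟨_, i, h8, h9⟩
      · exact h4 h5
      · rw [(hL hs0).1 h8] at h6 h7
        rcases h9 with h9 | ⟨j, h9, h10⟩
        · exact h9 h6
        · exact h9 (((hL h5).1 h10).symm.trans h7)
    · intro h4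
      push Not at h4
      obtain ⟨s, hs, hs0, h5⟩ := h4
      refine ⟨s, hs, hs0, ?_⟩
      by_cases h6 : s + x.2 ∈ D 0
      · refine Or.inr ⟨h6, ct s, (hL hs0).2 rfl, ?_⟩
        by_cases h7 : c (s + x.2) = ct s
        · exact Or.inr ⟨ct (s + x.2), h5 h6 h7, (hL h6).2 rfl⟩
        · exact Or.inl h7
      · exact Or.inl h6
  have hE1 : REIn J fun x : ℕ × ℕ => x.2 ∈ D x.1 := hJ.base hDA
  have hE2 : REIn J fun x : ℕ × ℕ => x.2 ∉ D x.1 := hJ.base hDA'
  have hT : REIn J fun x : ℕ × ℕ => ∀ s < (x.1 + 1) * (x.1 + 1), ∀ N < x.1 + 1,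
      (s ∉ D N ∨ s + x.2 ∈ D N) := by
    refine REIn.all_lt (S := fun (x : ℕ × ℕ) (s : ℕ) => ∀ N < x.1 + 1,
      (s ∉ D N ∨ s + x.2 ∈ D N)) ?_ hbnd
    refine REIn.all_lt (S := fun (x : (ℕ × ℕ) × ℕ) (N : ℕ) =>
      (x.2 ∉ D N ∨ x.2 + x.1.2 ∈ D N)) ?_ (by fun_prop)
    refine REIn.or ?_ ?_
    · exact hE2.comp (f := fun x : ((ℕ × ℕ) × ℕ) × ℕ => (x.2, x.1.2)) (by fun_prop)
    · exact hE1.comp (f := fun x : ((ℕ × ℕ) × ℕ) × ℕ => (x.2, x.1.2 + x.1.1.2)) (by fun_prop)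
  have hT' : REIn J fun x : ℕ × ℕ => ¬ ∀ s < (x.1 + 1) * (x.1 + 1), ∀ N < x.1 + 1,
      (s ∉ D N ∨ s + x.2 ∈ D N) := by
    have h3 : REIn J fun x : ℕ × ℕ => ∃ s, s < (x.1 + 1) * (x.1 + 1) ∧ ∃ N, N < x.1 + 1 ∧
        (s ∈ D N ∧ s + x.2 ∉ D N) := by
      refine REIn.ex (S := fun (x : ℕ × ℕ) (s : ℕ) => s < (x.1 + 1) * (x.1 + 1) ∧
        ∃ N, N < x.1 + 1 ∧ (s ∈ D N ∧ s + x.2 ∉ D N)) ?_
      refine REIn.and (REIn.of_re (RE.lt (by fun_prop) ?_)) ?_
      · exact (Primrec.nat_mul.comp (Primrec.succ.comp (Primrec.fst.comp Primrec.fst))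
          (Primrec.succ.comp (Primrec.fst.comp Primrec.fst))).to_comp
      refine REIn.ex (S := fun (x : (ℕ × ℕ) × ℕ) (N : ℕ) => N < x.1.1 + 1 ∧
        (x.2 ∈ D N ∧ x.2 + x.1.2 ∉ D N)) ?_
      refine REIn.and (REIn.of_re (RE.lt (by fun_prop) (by fun_prop))) (REIn.and ?_ ?_)
      · exact hE1.comp (f := fun x : ((ℕ × ℕ) × ℕ) × ℕ => (x.2, x.1.2)) (by fun_prop)
      · exact hE2.comp (f := fun x : ((ℕ × ℕ) × ℕ) × ℕ => (x.2, x.1.2 + x.1.1.2))
          (by fun_prop)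
    refine h3.of_eq fun x => ?_
    constructor
    · rintro ⟨s, hs, N, hN, h4, h5⟩ hall
      rcases hall s hs N hN with h6 | h6
      · exact h6 h4
      · exact h5 h6
    · intro h4
      push Not at h4
      obtain ⟨s, hs, N, hN, h5, h6⟩ := h4
      exact ⟨s, hs, N, hN, h5, h6⟩
  -- the greedy construction
  obtain ⟨H, h3, h4, h5, h6⟩ := greedyIn (A := J)
    (P := fun x => (0 < x ∧ x ∈ D 0) ∧ (c x = e ∧ ct x = e))
    (R := fun z x => (x ∈ D z ∧ ∀ s < (z + 1) * (z + 1), ∀ N < z + 1,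
      (s ∉ D N ∨ s + x ∈ D N)) ∧ ∀ s < (z + 1) * (z + 1), s ∈ D 0 →
      (s + x ∈ D 0 ∧ (c (s + x) = ct s ∧ ct (s + x) = ct s)))
    hP hP' ((hE1.and hT).and hR)
    (((hE2.or hT').or hR').of_eq fun x => by
      simp only [not_and_or]) (by
      intro l _ b
      obtain ⟨K, _, hK⟩ := exists_bd (fun z => (z + 1) * (z + 1)) l 0
      have hadd : ∀ s, ∃ a : ℕ → ℕ, ∀ N, s ∈ D N → ∀ y ∈ D (a N), s + y ∈ D N := by
        intro s
        have h7 : ∀ N, ∃ M, s ∈ D N → ∀ y ∈ D M, s + y ∈ D N := by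
          intro N
          by_cases hs0 : s ∈ D N
          · obtain ⟨M, hM⟩ := hD.2.2 N s hs0
            exact ⟨M, fun _ => hM⟩
          · exact ⟨0, fun h => absurd h hs0⟩
        choose a ha using h7
        exact ⟨a, ha⟩
      choose a ha using hadd
      have hbd : ∀ s, ∃ M, ∀ N ∈ List.range (K + 1), a s N ≤ M := by
        intro s
        obtain ⟨M, _, hM⟩ := exists_bd (a s) (List.range (K + 1)) 0
        exact ⟨M, hM⟩
      choose a' ha' using hbd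
      obtain ⟨N1, _, hN1⟩ := exists_bd m (List.range K) 0
      obtain ⟨N2, _, hN2⟩ := exists_bd a' (List.range K) 0
      obtain ⟨x, hx, hbx, hcx, hctx⟩ := he (max N1 (max N2 K)) b
      have key : ∀ z ∈ l, ∀ s < (z + 1) * (z + 1), ∀ N < z + 1, s ∈ D N → s + x ∈ D N := by
        intro z hz s hs N hN hsN
        have hzK := hK z hz
        have hsK : s < K := lt_of_lt_of_le hs hzK
        have hzz : z + 1 ≤ (z + 1) * (z + 1) := Nat.le_mul_of_pos_left _ (Nat.succ_pos z)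
        refine ha s N hsN x (hD.mono ?_ hx)
        have e1 := ha' s N (List.mem_range.2 (by
          have : N < K := lt_of_lt_of_le hN (hzz.trans hzK)
          omega))
        have e2 := hN2 s (List.mem_range.2 hsK)
        have e3 : N2 ≤ max N1 (max N2 K) := (le_max_left _ _).trans (le_max_right _ _)
        omega
      refine ⟨x, hbx, ⟨⟨by omega, hD.mono (Nat.zero_le _) hx⟩, hcx, hctx⟩,
        fun z hz => ⟨⟨?_, fun s hs N hN => ?_⟩, fun s hs hs0 => ?_⟩⟩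
      · refine hD.mono ?_ hx
        have hzK := hK z hz
        have hzz : z + 1 ≤ (z + 1) * (z + 1) := Nat.le_mul_of_pos_left _ (Nat.succ_pos z)
        have e3 : K ≤ max N1 (max N2 K) := (le_max_right _ _).trans (le_max_right _ _)
        have e4 : z + 1 ≤ K := hzz.trans hzK
        omega
      · by_cases hsN : s ∈ D N
        · exact Or.inr (key z hz s hs N hN hsN)
        · exact Or.inl hsN
      · have hsK : s < K := lt_of_lt_of_le hs (hK z hz)
        have h7 : x ∈ D (m s) := hD.mono ((hN1 s (List.mem_range.2 hsK)).trans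
          (le_max_left _ _)) hx
        have h9 := key z hz s hs 0 (Nat.succ_pos z) hs0
        exact ⟨h9, h1 s hs0 x h7, h2 s hs0 x h7 h9⟩)
  refine ⟨H, h3, h4, fun h0 => by have := (h5 0 h0).1.1; omega, ⟨e, ?_⟩, ?_⟩
  · have key : ∀ F : Finset ℕ, (F : Set ℕ) ⊆ H → F.Nonempty →
        c (∑ n ∈ F, n) = e ∧ ct (∑ n ∈ F, n) = e ∧ ∑ n ∈ F, n ∈ D 0 := by
      intro F
      induction F using Finset.induction_on_max with
      | empty => exact fun _ h => absurd h (by simp)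
      | insert a s hmax ih =>
        intro hF _
        have haH : a ∈ H := hF (by simp)
        have hsH : (s : Set ℕ) ⊆ H := fun x hx => hF (by
          simp only [Finset.coe_insert, Set.mem_insert_iff]
          exact Or.inr hx)
        have has : a ∉ s := fun h => absurd (hmax a h) (lt_irrefl _)
        rw [Finset.sum_insert has]
        obtain ⟨⟨_, p1⟩, p2, p3⟩ := h5 a haH
        rcases s.eq_empty_or_nonempty with rfl | hne
        · simp only [Finset.sum_empty, add_zero]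
          exact ⟨p2, p3, p1⟩
        · obtain ⟨i1, i2, i3⟩ := ih hsH hne
          have hzs : s.max' hne ∈ s := s.max'_mem hne
          obtain ⟨r1, r2, r3⟩ := (h6 _ (hsH hzs) a haH (hmax _ hzs)).2 _ (sum_lt_sq hne) i3
          rw [add_comm a]
          exact ⟨r2.trans i2, r3.trans i2, r1⟩
    exact fun F hF hne => ⟨(key F hF hne).1, (key F hF hne).2.2⟩
  · intro M
    obtain ⟨z0, hz0, hM⟩ := h4.exists_gt M
    refine ⟨z0 + 1, ?_⟩
    have key : ∀ F : Finset ℕ, (∀ x ∈ F, x ∈ H ∧ z0 + 1 ≤ x) → F.Nonempty →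
        ∑ n ∈ F, n ∈ D z0 := by
      intro F
      induction F using Finset.induction_on_max with
      | empty => exact fun _ h => absurd h (by simp)
      | insert a s hmax ih =>
        intro hF _
        obtain ⟨haH, haz⟩ := hF a (Finset.mem_insert_self _ _)
        have hsH : ∀ x ∈ s, x ∈ H ∧ z0 + 1 ≤ x := fun x hx => hF x (Finset.mem_insert_of_mem hx)
        have has : a ∉ s := fun h => absurd (hmax a h) (lt_irrefl _)
        rw [Finset.sum_insert has]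
        rcases s.eq_empty_or_nonempty with rfl | hne
        · simp only [Finset.sum_empty, add_zero]
          exact (h6 z0 hz0 a haH (by omega)).1.1
        · have i3 := ih hsH hne
          have hzs : s.max' hne ∈ s := s.max'_mem hne
          obtain ⟨q1, q2⟩ := hsH _ hzs
          rw [add_comm a]
          rcases (h6 _ q1 a haH (hmax _ hzs)).1.2 _ (sum_lt_sq hne) z0 (by omega) with h7 | h7
          · exact absurd i3 h7
          · exact h7
    rintro y ⟨F, hF1, hF2, rfl⟩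
    exact hD.mono hM.le (key F hF2 hF1)

end Pool.Agent.Run7.h353.PF
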