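import Mathlib
import Pool.Agent.Run7.h353.PF.Gen2

/-! Chains of colourings, each stable modulo the next one. -/

namespace Pool.Agent.Run7.h353.PF

open Pool.Agent.Helper446 Pool.Agent.Helper446.RE Pool.Agent.Helper446.Oracle
open Pool.Agent.Run7.h353.PS

/-- For every `n` in `D 0` there is `M` such that the colour of `n + y` for `y` in `D M` depends only
on the colour `χ y`. -/
def StableMod (D : ℕ → Set ℕ) (c χ : ℕ → ℕ) : Prop :=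
  ∀ n ∈ D 0, ∃ M, ∀ y ∈ D M, ∀ z ∈ D M, χ y = χ z → c (n + y) = c (n + z)

variable {A : Set ℕ} {J : ℕ → Set ℕ} {D : ℕ → Set ℕ} {χ : ℕ → ℕ → ℕ} {r : ℕ}

theorem chain (hD : SumFilter D) (hDA : REIn A fun x : ℕ × ℕ => x.2 ∈ D x.1)
    (hDA' : REIn A fun x : ℕ × ℕ => x.2 ∉ D x.1) (hk : ∀ i ≤ r, ∃ k, ∀ n, χ i n < k)
    (hχ : ∀ i ≤ r, REIn A fun x : ℕ × ℕ => χ i x.1 = x.2)
    (hχ' : ∀ i ≤ r, REIn A fun x : ℕ × ℕ => χ i x.1 ≠ x.2)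
    (hs : ∀ i < r, StableMod D (χ i) (χ (i + 1))) (hr : StableAlong D (χ r))
    (hJ0 : AboveJ A (J 0)) (hJ : ∀ i < r, AboveJ (J i) (J (i + 1))) :
    ∀ i ≤ r, ∃ H : Set ℕ, (REIn (J i) (· ∈ H) ∧ REIn (J i) (· ∉ H)) ∧ H.Infinite ∧ 0 ∉ H ∧
      (∃ e, ∀ F : Finset ℕ, (F : Set ℕ) ⊆ H → F.Nonempty →
        χ (r - i) (∑ n ∈ F, n) = e ∧ ∑ n ∈ F, n ∈ D 0) ∧ ∀ M, ∃ N, FsT H N ⊆ D M := by
  have hAJ : ∀ i ≤ r, ∀ {p : ℕ × ℕ → Prop}, REIn A p → REIn (J i) p := by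
    intro i
    induction i with
    | zero => exact fun _ _ hp => hJ0.base hp
    | succ i ih => exact fun hi _ hp => (hJ i (by omega)).base (ih (by omega) hp)
  intro i
  induction i with
  | zero =>
    intro _
    obtain ⟨k, hk⟩ := hk r le_rfl
    exact fullE (hχ r le_rfl) (hχ' r le_rfl) hk hD hr hDA hDA' hJ0
  | succ i ih =>
    intro hi
    obtain ⟨H, ⟨a1, a2⟩, a3, a4, ⟨e, a5⟩, a6⟩ := ih (by omega)
    obtain ⟨b1, b2⟩ := re_fsT a1 a2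
    have hsub : ∀ N, FsT H N ⊆ D 0 := by
      rintro N y ⟨F, h1, h2, rfl⟩
      exact (a5 F (fun x hx => (h2 x hx).1) h1).2
    obtain ⟨k, hk⟩ := hk (r - (i + 1)) (by omega)
    have hst : StableAlong (FsT H) (χ (r - (i + 1))) := by
      intro n hn
      obtain ⟨M, hM⟩ := hs (r - (i + 1)) (by omega) n (hsub 0 hn)
      obtain ⟨N, hN⟩ := a6 M
      refine ⟨N, fun y hy z hz => hM y (hN hy) z (hN hz) ?_⟩
      have e1 : r - (i + 1) + 1 = r - i := by omega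
      rw [e1]
      obtain ⟨F, f1, f2, rfl⟩ := hy
      obtain ⟨G, g1, g2, rfl⟩ := hz
      rw [(a5 F (fun x hx => (f2 x hx).1) f1).1, (a5 G (fun x hx => (g2 x hx).1) g1).1]
    obtain ⟨H', c1, c2, c3, ⟨e', c4⟩, c5⟩ := fullE (hAJ i (by omega) (hχ _ (by omega)))
      (hAJ i (by omega) (hχ' _ (by omega))) hk (fsT_filter a3) hst b1 b2 (hJ i (by omega))
    refine ⟨H', c1, c2, c3, ⟨e', fun F hF hne => ⟨(c4 F hF hne).1,
      hsub 0 (c4 F hF hne).2⟩⟩, fun M => ?_⟩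
    obtain ⟨N, hN⟩ := a6 M
    obtain ⟨N', hN'⟩ := c5 N
    exact ⟨N', hN'.trans hN⟩

end Pool.Agent.Run7.h353.PF
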